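import Pool.Agent.Lib.MP_dee342_nt.ShPer

namespace Pool.Agent.Lib.MP_dee342_nt.Old.ManyPieces

open Pool.Agent.Lib.MP_dee342_nt
open scoped Finset

/-- For every odd `a ≥ 3` (so for `3x+1` and `5x+1`) and `ε > 0` there is `C` such that the following
holds for every element `x` of an integer cycle of minimal period `p` and `N = t m ≥ (log p) ^ (2 + ε)`.
Suppose the first `N` letters of the parity word of `x` are cut into `m` pieces, and piece `j` is
followed by a rational `z j` with small odd denominator, different from the point of the cycle,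
such that `z 0` is close to `x` and `z (j + 1)` is close to the end of the orbit segment of `z j`,
close meaning within a budget times the least absolute value on the cycle. Then
`log N ≤ C m ^ (28 / 29)`. -/
theorem result (a : ℕ) (ha : Odd a) (ha3 : 3 ≤ a) (ε : ℝ) (hε : 0 < ε) :
    ∃ C : ℝ, ∀ x ∈ Function.periodicPts (T a), ∀ (m : ℕ) (t : ℕ → ℕ) (z : ℕ → ℚ), t 0 = 0 →
      (∀ j < m, t j < t (j + 1)) →
      Real.log (Function.minimalPeriod (T a) x) ^ (2 + ε) ≤ t m →
      (∀ j < m, Follows a x (z j) (t j) (t (j + 1)) ∧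
        ((z j).den : ℝ) ≤ bud a ε (t m) (t (j + 1) - t j)) →
      (∀ i, |(x : ℝ) - z 0| ≤ bud a ε (t m) (t 1) * |(((T a)^[i] x : ℤ) : ℝ)|) →
      (∀ j, j + 1 < m → ∀ i, |((z (j + 1) - (Tq a)^[t (j + 1) - t j] (z j) : ℚ) : ℝ)| ≤
        bud a ε (t m) (t (j + 2) - t j) * |(((T a)^[i] x : ℤ) : ℝ)|) →
      Real.log (t m) ≤ C * (m : ℝ) ^ (28 / 29 : ℝ) :=
  Q.shadow a ha ha3 ε hε

/-- The case of parity runs (`z j` a fixed point, `0` or `-1 / (a - 2)`): a cycle with `d` local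
maxima has `log p ≤ C (2 d + 1) ^ (28 / 29)`. -/
theorem local_maxima (a : ℕ) (ha : Odd a) (ha3 : 3 ≤ a) :
    ∃ C : ℝ, ∀ x ∈ Function.periodicPts (T a), Real.log (Function.minimalPeriod (T a) x) ≤
      C * ((2 * #{i < Function.minimalPeriod (T a) x | par a x i = 1 ∧ par a x (i + 1) = 0}
        + 1 : ℕ) : ℝ) ^ (28 / 29 : ℝ) := by
  simp only [Nat.Iio_eq_range]
  exact Q.maxima a ha ha3 (result a ha ha3)

/-- The number `c` of parity changes in the first `N` steps after the least element satisfies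
`log N ≤ C (c + 1) ^ (28 / 29)` for `(log p) ^ 3 ≤ N ≤ p`. -/
theorem parity_changes (a : ℕ) (ha : Odd a) (ha3 : 3 ≤ a) :
    ∃ C : ℝ, ∀ x ∈ Function.periodicPts (T a), (∀ i, |x| ≤ |(T a)^[i] x|) → ∀ N : ℕ,
      Real.log (Function.minimalPeriod (T a) x) ^ 3 ≤ N → N ≤ Function.minimalPeriod (T a) x →
      Real.log N ≤
        C * ((#{i < N | par a x (i + 1) ≠ par a x i} + 1 : ℕ) : ℝ) ^ (28 / 29 : ℝ) := by
  simp only [Nat.Iio_eq_range]
  exact Q.changes a ha ha3 (result a ha ha3)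

/-- The case of rational periodic points `z j`: pieces of the parity word that are periodic (period
at most `N ^ (1 - ε)`, or at least `log N` periods long). -/
theorem periodic_pieces (a : ℕ) (ha : Odd a) (ha3 : 3 ≤ a) (ε : ℝ) (hε : 0 < ε) :
    ∃ C : ℝ, ∀ x ∈ Function.periodicPts (T a), ∀ (m : ℕ) (t : ℕ → ℕ),
      (∀ j, t j ≤ t (j + 1)) → t 0 = 0 →
      Real.log (Function.minimalPeriod (T a) x) ^ (2 + ε) ≤ t m →
      t m ≤ Function.minimalPeriod (T a) x →
      (∀ i, |(x : ℝ)| ≤ Real.exp ((t m : ℝ) ^ (1 - ε)) * |(((T a)^[i] x : ℤ) : ℝ)|) →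
      (∀ j < m, ∃ v : ℕ, 1 ≤ v ∧
        (∀ i, t j ≤ i → i + v < t (j + 1) → par a x (i + v) = par a x i) ∧
        ((v : ℝ) ≤ (t m : ℝ) ^ (1 - ε) ∨ (v : ℝ) * Real.log (t m) ≤ (t (j + 1) - t j : ℕ))) →
      Real.log (t m) ≤ C * (m : ℝ) ^ (28 / 29 : ℝ) := by
  obtain ⟨C, hC⟩ := Q.pieces a ha ha3 (result a ha ha3) ε hε
  exact ⟨C, fun x hx m t ht => hC x hx m t (monotone_nat_of_le_succ ht)⟩

/-- The case of integers `z j` near the orbit of a second periodic point `x'` close to `x`: on each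
piece the parity words of `x` and `x'` agree, or the piece is short and both have the same number
of odd steps in it. The words themselves are arbitrary. -/
theorem two_points (a : ℕ) (ha : Odd a) (ha3 : 3 ≤ a) (ε : ℝ) (hε : 0 < ε) :
    ∃ C : ℝ, ∀ x ∈ Function.periodicPts (T a), ∀ x' ∈ Function.periodicPts (T a), x ≠ x' →
      ∀ (m : ℕ) (t : ℕ → ℕ), t 0 = 0 → (∀ j < m, t j < t (j + 1)) →
      Real.log (Function.minimalPeriod (T a) x) ^ (2 + ε) ≤ t m →
      (∀ i, |(x : ℝ) - x'| ≤ Real.exp ((t m : ℝ) ^ (1 - ε)) * |(((T a)^[i] x : ℤ) : ℝ)|) →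
      (∀ j < m, (∀ i, t j ≤ i → i < t (j + 1) → par a x i = par a x' i) ∨
        ((t (j + 1) - t j : ℕ) : ℝ) ≤ (t m : ℝ) ^ (1 - ε) ∧
          #{i < t (j + 1) - t j | par a x (t j + i) ≠ 0} =
            #{i < t (j + 1) - t j | par a x' (t j + i) ≠ 0}) →
      Real.log (t m) ≤ C * (m : ℝ) ^ (28 / 29 : ℝ) := by
  simp only [Nat.Iio_eq_range]
  exact Q.two_points a ha ha3 (result a ha ha3) ε hε

end Pool.Agent.Lib.MP_dee342_nt.Old.ManyPieces
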