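import Pool.Agent.Lib.MP_dee342_nt.Iv.Three
import Pool.Agent.Lib.MP_dee342_nt.Iv.Far

/-!
A power saving over the entropy exponent given by the first `log₂ x` parities, for the number of
periodic points of `T_a` in any interval `[c - x, c + x]`, uniformly in `c` (for `a ≥ 5`, of those
`n` whose next `2 log₂ x` iterates stay below `x ^ (θ - 1 + δ) * max |n| x`, `1 ≤ θ ≤ log₄ a`).
For `a = 3` the exponent is at most `0.9405`.
-/

set_option autoImplicit false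

namespace Pool.Agent.Lib.MP_dee342_nt.Old.PeriodicCount

open Pool.Agent.Lib.MP_dee342_nt

theorem result (a : ℕ) (ha : Odd a) (ha3 : 3 ≤ a) (θ : ℝ) (hθ1 : 1 ≤ θ)
    (hθ2 : θ ≤ max 1 (Real.log a / Real.log 4)) :
    ∃ δ > 0,
      (a = 3 → Real.binEntropy (θ * (Real.log 2 / Real.log a)) / Real.log 2 - δ ≤ 1881 / 2000) ∧
      ∃ C : ℝ, ∀ x : ℝ, 1 ≤ x → ∀ c : ℤ,
      ({n : ℤ | n ∈ Function.periodicPts (T a) ∧ |(n : ℝ) - c| ≤ x ∧
          (a = 3 ∨ ∀ j : ℕ, (j : ℝ) ≤ 2 * Real.logb 2 x →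
            |(((T a)^[j] n : ℤ) : ℝ)| ≤ x ^ (θ - 1 + δ) * max |(n : ℝ)| x)}.ncard : ℝ) ≤
        C * x ^ (Real.binEntropy (θ * (Real.log 2 / Real.log a)) / Real.log 2 - δ) := by
  have l4 : 0 < Real.log 4 := Real.log_pos (by norm_num)
  rw [show (1881 / 2000 : ℝ) = 0.9405 by norm_num]
  rcases eq_or_ne a 3 with rfl | h3
  · obtain rfl : θ = 1 := le_antisymm (hθ2.trans (max_le le_rfl ((div_le_one l4).mpr
      (Real.log_le_log (by norm_num) (by norm_num))))) hθ1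
    obtain ⟨C, h⟩ := Iv.three
    refine ⟨Real.binEntropy (Real.log 2 / Real.log 3) / Real.log 2 - 0.9405,
      sub_pos.mpr Iv.ent, fun _ => by simp, C, fun x hx c => ?_⟩
    simpa using h _ (Function.bijOn_periodicPts (T 3)).mapsTo
      (Function.bijOn_periodicPts (T 3)).injOn x hx c
  · have h5 : 5 ≤ a := by obtain ⟨k, rfl⟩ := ha; omega
    have h4 : (4 : ℝ) ≤ a := by exact_mod_cast (by omega : 4 ≤ a)
    rw [max_eq_right ((one_le_div l4).mpr (Real.log_le_log (by norm_num) h4))] at hθ2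
    obtain ⟨δ, hδ, C, h⟩ := Iv.far ha h5 hθ1 hθ2
    refine ⟨δ, hδ, fun c => absurd c h3, C, fun x hx c => le_trans ?_ (h x hx c)⟩
    refine Nat.cast_le.mpr (Set.ncard_le_ncard
      (fun n hn => ⟨hn.2.1, hn.2.2.resolve_left h3⟩) ?_)
    refine (Set.finite_Icc (c - ⌈x⌉) (c + ⌈x⌉)).subset fun n hn => ?_
    have h6 : |n - c| ≤ ⌈x⌉ := by exact_mod_cast hn.1.trans (Int.le_ceil x)
    exact ⟨by linarith [(abs_le.mp h6).1], by linarith [(abs_le.mp h6).2]⟩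

/-- The case `c = 0`. -/
theorem centre_zero (a : ℕ) (ha : Odd a) (ha3 : 3 ≤ a) (θ : ℝ) (hθ1 : 1 ≤ θ)
    (hθ2 : θ ≤ max 1 (Real.log a / Real.log 4)) :
    ∃ δ > 0,
      (a = 3 → Real.binEntropy (θ * (Real.log 2 / Real.log a)) / Real.log 2 - δ ≤ 1881 / 2000) ∧
      ∃ C : ℝ, ∀ x : ℝ, 1 ≤ x →
      ({n : ℤ | n ∈ Function.periodicPts (T a) ∧ |(n : ℝ)| ≤ x ∧
          (a = 3 ∨ ∀ j : ℕ, (j : ℝ) ≤ 2 * Real.logb 2 x →
            |(((T a)^[j] n : ℤ) : ℝ)| ≤ x ^ (θ + δ))}.ncard : ℝ) ≤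
        C * x ^ (Real.binEntropy (θ * (Real.log 2 / Real.log a)) / Real.log 2 - δ) := by
  obtain ⟨δ, hδ, h1, C, h⟩ := result a ha ha3 θ hθ1 hθ2
  refine ⟨δ, hδ, h1, C, fun x hx => le_of_eq_of_le ?_ (h x hx 0)⟩
  congr 3
  ext n
  rw [Int.cast_zero, sub_zero]
  refine and_congr_right fun _ => and_congr_right fun hn => ?_
  rw [max_eq_right hn, ← Real.rpow_add_one (by linarith), show θ - 1 + δ + 1 = θ + δ by ring]

/-- The periodic points of the `3x+1` map in any interval. -/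
theorem three_points : ∃ C : ℝ, ∀ x : ℝ, 1 ≤ x → ∀ c : ℤ,
    ({n : ℤ | n ∈ Function.periodicPts (T 3) ∧ |(n : ℝ) - c| ≤ x}.ncard : ℝ) ≤
      C * x ^ (0.9405 : ℝ) :=
  Iv.three.imp fun _ h => h _ (Function.bijOn_periodicPts (T 3)).mapsTo
    (Function.bijOn_periodicPts (T 3)).injOn

theorem endpoint : Real.binEntropy (Real.log 5 / Real.log 4 * (Real.log 2 / Real.log (5 : ℕ))) /
    Real.log 2 = 1 := by
  have l2 : 0 < Real.log 2 := Real.log_pos (by norm_num)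
  have l5 : 0 < Real.log 5 := Real.log_pos (by norm_num)
  have l4 : Real.log 4 = 2 * Real.log 2 := by
    rw [show (4 : ℝ) = 2 ^ 2 by norm_num, Real.log_pow]
    norm_num
  have e : Real.log 5 / Real.log 4 * (Real.log 2 / Real.log (5 : ℕ)) = 2⁻¹ := by
    rw [l4, Nat.cast_ofNat]
    field_simp
  rw [e, Real.binEntropy_two_inv, div_self l2.ne']

/-- The points of `[-x, x]` on the cycles of `T_5` that lie below `x ^ (log₄ 5 + δ)`. -/
theorem five_cycles : ∃ δ > 0, ∃ C : ℝ, ∀ x : ℝ, 1 ≤ x →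
    ({n : ℤ | n ∈ Function.periodicPts (T 5) ∧ |(n : ℝ)| ≤ x ∧
        ∀ j : ℕ, |(((T 5)^[j] n : ℤ) : ℝ)| ≤ x ^ (Real.log 5 / Real.log 4 + δ)}.ncard : ℝ) ≤
      C * x ^ (1 - δ) := by
  obtain ⟨δ, hδ, -, C, h⟩ := centre_zero 5 (by decide) (by norm_num) (Real.log 5 / Real.log 4)
    ((one_le_div (Real.log_pos (by norm_num))).mpr (Real.log_le_log (by norm_num) (by norm_num)))
    (le_max_of_le_right (by norm_num))
  rw [endpoint] at h
  refine ⟨δ, hδ, C, fun x hx => le_trans ?_ (h x hx)⟩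
  refine Nat.cast_le.mpr (Set.ncard_le_ncard
    (fun n hn => ⟨hn.1, hn.2.1, Or.inr fun j _ => hn.2.2 j⟩) ?_)
  refine (Set.finite_Icc (-⌈x⌉) ⌈x⌉).subset fun n hn => abs_le.mp ?_
  exact_mod_cast hn.2.1.trans (Int.le_ceil x)

/-- In any interval: the points of cycles of `T_5` that stay below a small power times `|n|`. -/
theorem five_narrow : ∃ δ > 0, ∃ C : ℝ, ∀ x : ℝ, 1 ≤ x → ∀ c : ℤ,
    ({n : ℤ | n ∈ Function.periodicPts (T 5) ∧ |(n : ℝ) - c| ≤ x ∧ ∀ j : ℕ,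
        |(((T 5)^[j] n : ℤ) : ℝ)| ≤ x ^ (Real.log 5 / Real.log 4 - 1 + δ) * |(n : ℝ)|}.ncard : ℝ) ≤
      C * x ^ (1 - δ) := by
  obtain ⟨δ, hδ, -, C, h⟩ := result 5 (by decide) (by norm_num) (Real.log 5 / Real.log 4)
    ((one_le_div (Real.log_pos (by norm_num))).mpr (Real.log_le_log (by norm_num) (by norm_num)))
    (le_max_of_le_right (by norm_num))
  rw [endpoint] at h
  refine ⟨δ, hδ, C, fun x hx c => le_trans ?_ (h x hx c)⟩
  refine Nat.cast_le.mpr (Set.ncard_le_ncard (fun n hn => ⟨hn.1, hn.2.1, Or.inr fun j _ =>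
    (hn.2.2 j).trans (mul_le_mul_of_nonneg_left (le_max_left _ _) (by positivity))⟩) ?_)
  refine (Set.finite_Icc (c - ⌈x⌉) (c + ⌈x⌉)).subset fun n hn => ?_
  have h6 : |n - c| ≤ ⌈x⌉ := by exact_mod_cast hn.2.1.trans (Int.le_ceil x)
  exact ⟨by linarith [(abs_le.mp h6).1], by linarith [(abs_le.mp h6).2]⟩

end Pool.Agent.Lib.MP_dee342_nt.Old.PeriodicCount
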